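import Mathlib

/-!
# Three Gromov-Hausdorff distances cannot be realized simultaneously

Three metric spaces with four points each, all distances being `10`, `11` or `12`. The
Gromov-Hausdorff distances are at most `1 / 2`. If isometric copies in a metric space `Z` had
pairwise Hausdorff distances less than `1`, then the nearest points would give bijections
`X₁ → X₂ → X₃` and `X₁ → X₃` which form a commutative triangle and change no distance by more than
`1`; there are no such bijections.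
-/

set_option autoImplicit false

namespace Pool.Agent.Results.MP_975509_gt.ThreeFourPointSpaces

open Set Metric GromovHausdorff

universe u

/-- A space with the four points `0, 1, 2, 3`, where the distance of `x ≠ y` is `10 + w x y`. -/
structure FourPoints (w : Fin 4 → Fin 4 → ℕ) where
  pt : Fin 4

/-- The weights of the first space. -/
def w₁ : Fin 4 → Fin 4 → ℕ :=
  ![![0, 0, 0, 0], ![0, 0, 1, 1], ![0, 1, 0, 1], ![0, 1, 1, 0]]

/-- The weights of the second space. -/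
def w₂ : Fin 4 → Fin 4 → ℕ :=
  ![![0, 0, 0, 1], ![0, 0, 2, 2], ![0, 2, 0, 2], ![1, 2, 2, 0]]

/-- The weights of the third space. -/
def w₃ : Fin 4 → Fin 4 → ℕ :=
  ![![0, 0, 0, 2], ![0, 0, 1, 1], ![0, 1, 0, 1], ![2, 1, 1, 0]]

/-- The distance function. -/
noncomputable def dd (w : Fin 4 → Fin 4 → ℕ) (x y : Fin 4) : ℝ := if x = y then 0 else 10 + w x y

/-- The metric, for symmetric weights which are at most `2`. -/
noncomputable abbrev metric (w : Fin 4 → Fin 4 → ℕ) (hs : ∀ x y, w x y = w y x)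
    (hw : ∀ x y, w x y ≤ 2) : MetricSpace (FourPoints w) where
  dist x y := dd w x.pt y.pt
  dist_self x := by
    simp [dd]
  dist_comm x y := by
    unfold dd
    by_cases h : x.pt = y.pt
    · rw [if_pos h, if_pos h.symm]
    · rw [if_neg h, if_neg (fun h' => h h'.symm), hs]
  dist_triangle x y z := by
    unfold dd
    have h1 : ∀ a b, (w a b : ℝ) ≤ 2 := fun a b => by exact_mod_cast hw a b
    have h2 : ∀ a b, (0 : ℝ) ≤ w a b := fun a b => Nat.cast_nonneg _
    have a1 := h1 x.pt z.pt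
    have a2 := h2 x.pt y.pt
    have a3 := h2 y.pt z.pt
    by_cases hxz : x.pt = z.pt
    · rw [if_pos hxz]
      split_ifs <;> linarith
    · rw [if_neg hxz]
      by_cases hxy : x.pt = y.pt
      · rw [if_pos hxy, ← hxy, if_neg hxz]
        linarith
      · rw [if_neg hxy]
        by_cases hyz : y.pt = z.pt
        · rw [if_pos hyz, ← hyz]
          linarith
        · rw [if_neg hyz]
          linarith
  eq_of_dist_eq_zero {x y} h := by
    change dd w x.pt y.pt = 0 at h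
    unfold dd at h
    split_ifs at h with hxy
    · cases x; cases y; simp_all
    · have : (0 : ℝ) ≤ w x.pt y.pt := Nat.cast_nonneg _
      linarith

noncomputable instance inst₁ : MetricSpace (FourPoints w₁) := metric w₁ (by decide) (by decide)
noncomputable instance inst₂ : MetricSpace (FourPoints w₂) := metric w₂ (by decide) (by decide)
noncomputable instance inst₃ : MetricSpace (FourPoints w₃) := metric w₃ (by decide) (by decide)

instance (w : Fin 4 → Fin 4 → ℕ) : Finite (FourPoints w) :=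
  Finite.of_injective (fun x => x.pt) (fun x y h => by cases x; cases y; simp_all)

instance (w : Fin 4 → Fin 4 → ℕ) : Nonempty (FourPoints w) := ⟨⟨0⟩⟩

instance (w : Fin 4 → Fin 4 → ℕ) [MetricSpace (FourPoints w)] : CompactSpace (FourPoints w) :=
  Finite.compactSpace

/-- Compatibility of a map of indices with two weights. -/
def Good (w w' : Fin 4 → Fin 4 → ℕ) (g : Fin 4 → Fin 4) : Prop :=
  ∀ x y, x ≠ y → g x ≠ g y ∧ w x y ≤ w' (g x) (g y) + 1 ∧ w' (g x) (g y) ≤ w x y + 1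

instance (w w' : Fin 4 → Fin 4 → ℕ) (g : Fin 4 → Fin 4) : Decidable (Good w w' g) := by
  unfold Good; infer_instance

theorem check : ∀ g : Fin 4 → Fin 4, Good w₁ w₂ g → ∀ k : Fin 4 → Fin 4, Good w₂ w₃ k →
    ¬ Good w₁ w₃ (fun x => k (g x)) := by
  decide +kernel

theorem good_of {Z : Type u} [MetricSpace Z] (w w' : Fin 4 → Fin 4 → ℕ)
    [MetricSpace (FourPoints w)] [MetricSpace (FourPoints w')]
    (h1 : ∀ x y : FourPoints w, dist x y = dd w x.pt y.pt)
    (h2 : ∀ x y : FourPoints w', dist x y = dd w' x.pt y.pt)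
    (φ : FourPoints w → Z) (ψ : FourPoints w' → Z) (hφ : Isometry φ) (hψ : Isometry ψ)
    (g : Fin 4 → Fin 4) (hg : ∀ x, dist (φ ⟨x⟩) (ψ ⟨g x⟩) < 1) : Good w w' g := by
  intro x y hxy
  have a := hg x
  have b := hg y
  have c : dist (φ ⟨x⟩) (φ ⟨y⟩) = 10 + w x y := by
    rw [hφ.dist_eq, h1]
    simp [dd, hxy]
  have t1 := dist_triangle4 (φ ⟨x⟩) (ψ ⟨g x⟩) (ψ ⟨g y⟩) (φ ⟨y⟩)
  have t2 := dist_triangle4 (ψ ⟨g x⟩) (φ ⟨x⟩) (φ ⟨y⟩) (ψ ⟨g y⟩)
  rw [dist_comm (ψ ⟨g y⟩) (φ ⟨y⟩)] at t1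
  rw [dist_comm (ψ ⟨g x⟩) (φ ⟨x⟩)] at t2
  have hw0 : (0 : ℝ) ≤ w x y := Nat.cast_nonneg _
  have hne : g x ≠ g y := by
    intro he
    rw [he] at t1
    rw [he] at a
    rw [dist_self] at t1
    linarith
  have d : dist (ψ ⟨g x⟩) (ψ ⟨g y⟩) = 10 + w' (g x) (g y) := by
    rw [hψ.dist_eq, h2]
    simp [dd, hne]
  refine ⟨hne, ?_, ?_⟩
  · have : (w x y : ℝ) < w' (g x) (g y) + 2 := by linarith
    have : w x y < w' (g x) (g y) + 2 := by exact_mod_cast this
    omega
  · have : (w' (g x) (g y) : ℝ) < w x y + 2 := by linarith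
    have : w' (g x) (g y) < w x y + 2 := by exact_mod_cast this
    omega

theorem gh_le (w w' : Fin 4 → Fin 4 → ℕ) [MetricSpace (FourPoints w)]
    [MetricSpace (FourPoints w')]
    (h1 : ∀ x y : FourPoints w, dist x y = dd w x.pt y.pt)
    (h2 : ∀ x y : FourPoints w', dist x y = dd w' x.pt y.pt)
    (e : Equiv.Perm (Fin 4)) (hg : Good w w' e) :
    ghDist (FourPoints w) (FourPoints w') ≤ 1 / 2 := by
  have h := ghDist_le_of_approx_subsets (X := FourPoints w) (Y := FourPoints w')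
    (s := (univ : Set (FourPoints w))) (fun x => ⟨e x.1.pt⟩) (ε₁ := 0) (ε₂ := 1) (ε₃ := 0)
    (fun x => ⟨x, mem_univ x, by simp⟩)
    (fun y => ⟨⟨⟨e.symm y.pt⟩, mem_univ _⟩, by
      have : (⟨e (e.symm y.pt)⟩ : FourPoints w') = y := by
        cases y; simp
      simp⟩)
    (fun x y => by
      change |dist x.1 y.1 - dist (⟨e x.1.pt⟩ : FourPoints w') ⟨e y.1.pt⟩| ≤ 1
      rw [h1, h2]
      unfold dd
      by_cases hxy : x.1.pt = y.1.pt
      · rw [if_pos hxy]
        simp [hxy]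
      · obtain ⟨h3, h4, h5⟩ := hg _ _ hxy
        rw [if_neg hxy, if_neg h3]
        have h4' : (w x.1.pt y.1.pt : ℝ) ≤ w' (e x.1.pt) (e y.1.pt) + 1 := by exact_mod_cast h4
        have h5' : (w' (e x.1.pt) (e y.1.pt) : ℝ) ≤ w x.1.pt y.1.pt + 1 := by exact_mod_cast h5
        rw [abs_le]
        constructor <;> linarith)
  linarith

theorem near {Z : Type u} [MetricSpace Z] (w w' : Fin 4 → Fin 4 → ℕ)
    (φ : FourPoints w → Z) (ψ : FourPoints w' → Z)
    (h : hausdorffDist (range φ) (range ψ) < 1) :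
    ∃ g : Fin 4 → Fin 4, ∀ x, dist (φ ⟨x⟩) (ψ ⟨g x⟩) < 1 := by
  have hfin : hausdorffEDist (range φ) (range ψ) ≠ ⊤ :=
    hausdorffEDist_ne_top_of_nonempty_of_bounded (range_nonempty φ) (range_nonempty ψ)
      (finite_range φ).isBounded (finite_range ψ).isBounded
  have key : ∀ x : Fin 4, ∃ y : Fin 4, dist (φ ⟨x⟩) (ψ ⟨y⟩) < 1 := by
    intro x
    obtain ⟨z, ⟨y, rfl⟩, hz⟩ := exists_dist_lt_of_hausdorffDist_lt (mem_range_self ⟨x⟩) h hfin
    exact ⟨y.pt, hz⟩
  choose g hg using key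
  exact ⟨g, hg⟩

theorem no_common {Z : Type u} [MetricSpace Z] (φ₁ : FourPoints w₁ → Z) (φ₂ : FourPoints w₂ → Z)
    (φ₃ : FourPoints w₃ → Z) (h₁ : Isometry φ₁) (h₂ : Isometry φ₂) (h₃ : Isometry φ₃)
    (h12 : hausdorffDist (range φ₁) (range φ₂) < 1)
    (h23 : hausdorffDist (range φ₂) (range φ₃) < 1)
    (h13 : hausdorffDist (range φ₁) (range φ₃) < 1) : False := by
  obtain ⟨g, hg⟩ := near w₁ w₂ φ₁ φ₂ h12
  obtain ⟨k, hk⟩ := near w₂ w₃ φ₂ φ₃ h23
  obtain ⟨l, hl⟩ := near w₁ w₃ φ₁ φ₃ h13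
  have hlk : l = fun x => k (g x) := by
    funext x
    by_contra hne
    have h1 : dist (φ₃ ⟨l x⟩) (φ₃ ⟨k (g x)⟩) = 10 + w₃ (l x) (k (g x)) := by
      rw [h₃.dist_eq]
      change dd w₃ (l x) (k (g x)) = _
      simp [dd, hne]
    have h2 := dist_triangle4 (φ₃ ⟨l x⟩) (φ₁ ⟨x⟩) (φ₂ ⟨g x⟩) (φ₃ ⟨k (g x)⟩)
    rw [dist_comm (φ₃ ⟨l x⟩) (φ₁ ⟨x⟩)] at h2
    have h3 := hg x
    have h4 := hk (g x)
    have h5 := hl x
    have : (0 : ℝ) ≤ w₃ (l x) (k (g x)) := Nat.cast_nonneg _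
    linarith
  have g1 := good_of w₁ w₂ (fun _ _ => rfl) (fun _ _ => rfl) φ₁ φ₂ h₁ h₂ g hg
  have g2 := good_of w₂ w₃ (fun _ _ => rfl) (fun _ _ => rfl) φ₂ φ₃ h₂ h₃ k hk
  have g3 := good_of w₁ w₃ (fun _ _ => rfl) (fun _ _ => rfl) φ₁ φ₃ h₁ h₃ l hl
  rw [hlk] at g3
  exact check g g1 k g2 g3

/-- **Three Gromov-Hausdorff distances cannot be realized simultaneously.** There are three compact
(four-point) metric spaces `X₁`, `X₂`, `X₃` with pairwise Gromov-Hausdorff distances at most `1 / 2`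
such that, whenever they are isometrically embedded in one metric space `Z`, two of the images have
Hausdorff distance at least `1`. In particular the three Hausdorff distances are never equal to the
three Gromov-Hausdorff distances. -/
theorem result : ∃ (X₁ X₂ X₃ : Type) (_ : MetricSpace X₁) (_ : MetricSpace X₂)
    (_ : MetricSpace X₃) (_ : CompactSpace X₁) (_ : CompactSpace X₂) (_ : CompactSpace X₃)
    (_ : Nonempty X₁) (_ : Nonempty X₂) (_ : Nonempty X₃),
    (ghDist X₁ X₂ ≤ 1 / 2 ∧ ghDist X₂ X₃ ≤ 1 / 2 ∧ ghDist X₁ X₃ ≤ 1 / 2) ∧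
    ∀ (Z : Type u) [MetricSpace Z] (φ₁ : X₁ → Z) (φ₂ : X₂ → Z) (φ₃ : X₃ → Z),
      Isometry φ₁ → Isometry φ₂ → Isometry φ₃ →
      (1 ≤ hausdorffDist (range φ₁) (range φ₂) ∨ 1 ≤ hausdorffDist (range φ₂) (range φ₃) ∨
        1 ≤ hausdorffDist (range φ₁) (range φ₃)) ∧
      ¬ (hausdorffDist (range φ₁) (range φ₂) = ghDist X₁ X₂ ∧
        hausdorffDist (range φ₂) (range φ₃) = ghDist X₂ X₃ ∧
        hausdorffDist (range φ₁) (range φ₃) = ghDist X₁ X₃) := by
  have b12 : ghDist (FourPoints w₁) (FourPoints w₂) ≤ 1 / 2 :=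
    gh_le w₁ w₂ (fun _ _ => rfl) (fun _ _ => rfl) (Equiv.refl _) (by decide)
  have b23 : ghDist (FourPoints w₂) (FourPoints w₃) ≤ 1 / 2 :=
    gh_le w₂ w₃ (fun _ _ => rfl) (fun _ _ => rfl) (Equiv.refl _) (by decide)
  have b13 : ghDist (FourPoints w₁) (FourPoints w₃) ≤ 1 / 2 :=
    gh_le w₁ w₃ (fun _ _ => rfl) (fun _ _ => rfl) (Equiv.swap 0 1) (by decide)
  refine ⟨FourPoints w₁, FourPoints w₂, FourPoints w₃, inst₁, inst₂, inst₃, inferInstance,
    inferInstance, inferInstance, inferInstance, inferInstance, inferInstance,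
    ⟨b12, b23, b13⟩, ?_⟩
  intro Z _ φ₁ φ₂ φ₃ h₁ h₂ h₃
  have key : 1 ≤ hausdorffDist (range φ₁) (range φ₂) ∨ 1 ≤ hausdorffDist (range φ₂) (range φ₃) ∨
        1 ≤ hausdorffDist (range φ₁) (range φ₃) := by
    by_contra hcon
    push Not at hcon
    exact no_common φ₁ φ₂ φ₃ h₁ h₂ h₃ hcon.1 hcon.2.1 hcon.2.2
  refine ⟨key, ?_⟩
  rintro ⟨e12, e23, e13⟩
  rw [e12, e23, e13] at key
  rcases key with h | h | h <;> linarith

end Pool.Agent.Results.MP_975509_gt.ThreeFourPointSpaces
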